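import Mathlib

set_option autoImplicit false

/-!
# The equation `x² + A kⁿ = B` can have five solutions

For `k ≥ 2`, `A ≥ 1`, `B ≥ 1` let `N(k, A, B)` be the number of pairs `(x, n)` of natural numbers with
`x² + A kⁿ = B`. It was conjectured that always `N(k, A, B) ≤ 4`. This is false: for instance
`x² + 455 · 4ⁿ = 489626271744` has the solutions `(699733, 0)`, `(699392, 10)`, `(698368, 11)`,
`(606208, 14)`, `(32768, 15)`. There are infinitely many examples, for `k = 4` and for `k = 2`.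

Construction. Put `P = q⁶ / 2`, `A = 2 P - 1`, `B = P² + 4 P`. Then

* `B - A = (P + 1)²`, `B - 4 A = (P - 2)²`,
* `B - (4 / P²) A = (P + 2 - 2 / P)²`,
* `B - q⁴ A = (q⁶ / 2 - q⁴ - q²)²`,
* `B - (q⁶ / 4) A = (3 q³ / 2)²`.

For `q = 2 ^ s`, `s ≥ 2`, the five factors `1, 4, 4 / P², q⁴, q⁶ / 4` are different powers of `4`, and
one multiplies by `P² / 4`, a power of `4`, to clear denominators. Below `s = r + 2`.
-/

namespace Pool.Agent.Results.MP_ca3412_nt.FiveSolutions

/-- The set of all solutions `(x, n)` of `x² + A kⁿ = B` in natural numbers (`0` is allowed). -/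
def solutions (k A B : ℕ) : Set (ℕ × ℕ) := {p | p.1 ^ 2 + A * k ^ p.2 = B}

theorem finite_solutions (k A B : ℕ) (hk : 2 ≤ k) (hA : 1 ≤ A) : (solutions k A B).Finite := by
  refine Set.Finite.subset ((Set.finite_Iic B).prod (Set.finite_Iic B)) ?_
  rintro ⟨x, n⟩ h
  simp only [solutions, Set.mem_ofPred_eq] at h
  have h1 : x ≤ x ^ 2 := Nat.le_self_pow (by norm_num) x
  have h2 : n < k ^ n := Nat.lt_pow_self (by omega)
  have h3 : k ^ n ≤ A * k ^ n := Nat.le_mul_of_pos_left _ (by omega)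
  simp only [Set.mem_prod, Set.mem_Iic]
  constructor <;> omega

/-- The coefficient `A` of the family, `2 ^ (6 r + 12) - 1`. -/
def coefA (r : ℕ) : ℕ := 2 ^ (6 * r + 12) - 1

/-- The right-hand side `B` of the family. -/
def coefB (r : ℕ) : ℕ := (2 ^ (12 * r + 22) + 2 ^ (6 * r + 13)) * 2 ^ (12 * r + 20)

theorem one_le_coefA (r : ℕ) : 1 ≤ coefA r := by
  have h : 2 ^ 1 ≤ 2 ^ (6 * r + 12) := Nat.pow_le_pow_right (by norm_num) (by omega)
  unfold coefA
  omega

theorem one_le_coefB (r : ℕ) : 1 ≤ coefB r := by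
  unfold coefB
  exact Nat.mul_pos (by positivity) (by positivity)

/-- The five values of `x` and `n`. -/
def sol (r : ℕ) : Fin 5 → ℕ × ℕ :=
  ![(2 ^ (12 * r + 21) + 2 ^ (6 * r + 11) - 1, 0),
    ((2 ^ (6 * r + 11) + 1) * 2 ^ (6 * r + 10), 6 * r + 10),
    ((2 ^ (6 * r + 11) - 2) * 2 ^ (6 * r + 10), 6 * r + 11),
    ((2 ^ (6 * r + 11) - 2 ^ (4 * r + 8) - 2 ^ (2 * r + 4)) * 2 ^ (6 * r + 10), 8 * r + 14),
    (3 * 2 ^ (3 * r + 5) * 2 ^ (6 * r + 10), 9 * r + 15)]

theorem sol_mem (r : ℕ) (i : Fin 5) :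
    (sol r i).1 ^ 2 + coefA r * 4 ^ (sol r i).2 = coefB r := by
  obtain ⟨y, hy⟩ : ∃ y : ℕ, y = 2 ^ r := ⟨_, rfl⟩
  have hy1 : 1 ≤ y := hy ▸ Nat.one_le_two_pow
  have e : ∀ a b : ℕ, 2 ^ (a * r + b) = 2 ^ b * y ^ a := by
    intro a b
    rw [pow_add, mul_comm a r, pow_mul, ← hy, mul_comm]
  have e4 : ∀ a b : ℕ, 4 ^ (a * r + b) = 2 ^ (2 * b) * y ^ (2 * a) := by
    intro a b
    rw [show (4 : ℕ) = 2 ^ 2 by norm_num, ← pow_mul,
      show 2 * (a * r + b) = (2 * a) * r + 2 * b by ring, e]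
  have hA : (coefA r : ℤ) = 4096 * (y : ℤ) ^ 6 - 1 := by
    have h1 : 1 ≤ 2 ^ (6 * r + 12) := Nat.one_le_two_pow
    unfold coefA
    rw [Nat.cast_sub h1, e]
    push_cast
    ring
  have hB : (coefB r : ℤ) =
      (4194304 * (y : ℤ) ^ 12 + 8192 * (y : ℤ) ^ 6) * (1048576 * (y : ℤ) ^ 12) := by
    unfold coefB
    rw [e, e, e]
    push_cast
    ring
  have hy6 : 1 ≤ y ^ 6 := Nat.one_le_pow _ _ hy1
  have hz : ((((sol r i).1 ^ 2 + coefA r * 4 ^ (sol r i).2 : ℕ)) : ℤ) = (coefB r : ℤ) := by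
    rw [Nat.cast_add, Nat.cast_mul, hA, hB]
    fin_cases i
    · have h1 : 1 ≤ 2 ^ (12 * r + 21) + 2 ^ (6 * r + 11) :=
        le_trans Nat.one_le_two_pow (Nat.le_add_right _ _)
      simp only [sol, Fin.zero_eta, Fin.isValue, Matrix.cons_val_zero]
      rw [Nat.cast_pow, Nat.cast_sub h1, e, e]
      push_cast
      ring
    · simp only [sol, Fin.mk_one, Fin.isValue, Matrix.cons_val_one, Matrix.cons_val_zero]
      rw [e4, e, e]
      push_cast
      ring
    · have h1 : 2 ≤ 2 ^ (6 * r + 11) :=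
        le_trans (by norm_num) (Nat.pow_le_pow_right (by norm_num) (show 1 ≤ 6 * r + 11 by omega))
      simp only [sol, Fin.reduceFinMk, Matrix.cons_val]
      rw [Nat.cast_pow, Nat.cast_mul, Nat.cast_sub h1, e4, e, e]
      push_cast
      ring
    · have h1 : 2 ^ (4 * r + 8) ≤ 2 ^ (6 * r + 11) :=
        Nat.pow_le_pow_right (by norm_num) (by omega)
      have h2 : 2 ^ (2 * r + 4) ≤ 2 ^ (6 * r + 11) - 2 ^ (4 * r + 8) := by
        have h3 : 2 ^ (6 * r + 11) = 2 ^ (2 * r + 3) * 2 ^ (4 * r + 8) := by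
          rw [← pow_add]
          congr 1
          ring
        have h4 : 2 ^ (2 * r + 4) ≤ 2 ^ (4 * r + 8) := Nat.pow_le_pow_right (by norm_num) (by omega)
        have h5 : 2 ^ 1 ≤ 2 ^ (2 * r + 3) := Nat.pow_le_pow_right (by norm_num) (by omega)
        have h6 : 2 ^ 1 * 2 ^ (4 * r + 8) ≤ 2 ^ (2 * r + 3) * 2 ^ (4 * r + 8) :=
          Nat.mul_le_mul_right _ h5
        omega
      simp only [sol, Fin.reduceFinMk, Matrix.cons_val]
      rw [Nat.cast_pow, Nat.cast_mul, Nat.cast_sub h2, Nat.cast_sub h1, e4, e, e, e, e]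
      push_cast
      ring
    · simp only [sol, Fin.reduceFinMk, Matrix.cons_val]
      rw [e4, e, e]
      push_cast
      ring
  exact_mod_cast hz

theorem sol_injective (r : ℕ) : Function.Injective (fun i => (sol r i).2) := by
  intro i j h
  fin_cases i <;> fin_cases j <;> simp [sol] at h ⊢ <;> omega

theorem five_le_four (r : ℕ) : 5 ≤ (solutions 4 (coefA r) (coefB r)).ncard := by
  classical
  have hfin := finite_solutions 4 (coefA r) (coefB r) (by norm_num) (one_le_coefA r)
  have hinj : Function.Injective (sol r) := fun i j h => sol_injective r (congrArg Prod.snd h)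
  have h1 : (Set.range (sol r)).ncard = 5 := by
    rw [← Set.image_univ, Set.ncard_image_of_injective _ hinj, Set.ncard_univ]
    simp
  rw [← h1]
  refine Set.ncard_le_ncard ?_ hfin
  rintro _ ⟨i, rfl⟩
  exact sol_mem r i

theorem five_le_two (r : ℕ) : 5 ≤ (solutions 2 (coefA r) (coefB r)).ncard := by
  classical
  have hfin := finite_solutions 2 (coefA r) (coefB r) (by norm_num) (one_le_coefA r)
  have hinj : Function.Injective (fun i => ((sol r i).1, 2 * (sol r i).2)) := by
    intro i j h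
    refine sol_injective r ?_
    have h2 := congrArg Prod.snd h
    simp only at h2 ⊢
    omega
  have h1 : (Set.range (fun i => ((sol r i).1, 2 * (sol r i).2))).ncard = 5 := by
    rw [← Set.image_univ, Set.ncard_image_of_injective _ hinj, Set.ncard_univ]
    simp
  rw [← h1]
  refine Set.ncard_le_ncard ?_ hfin
  rintro _ ⟨i, rfl⟩
  have h := sol_mem r i
  simp only [solutions, Set.mem_ofPred_eq]
  rw [pow_mul]
  exact h

theorem nosq (a v : ℕ) (h1 : a ^ 2 < v) (h2 : v < (a + 1) ^ 2) (x : ℕ) : x ^ 2 ≠ v := by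
  intro h
  have h3 : a < x := lt_of_pow_lt_pow_left₀ 2 (Nat.zero_le _) (by omega)
  have h4 : x < a + 1 := lt_of_pow_lt_pow_left₀ 2 (Nat.zero_le _) (by omega)
  omega

theorem sq_eq (a x : ℕ) (h : x ^ 2 = a ^ 2) : x = a :=
  Nat.pow_left_injective (n := 2) (by norm_num) h

theorem example_eq : solutions 4 455 489626271744 =
    {(699733, 0), (699392, 10), (698368, 11), (606208, 14), (32768, 15)} := by
  ext ⟨x, n⟩
  simp only [solutions, Set.mem_ofPred_eq, Set.mem_insert_iff, Set.mem_singleton_iff, Prod.mk.injEq]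
  constructor
  · intro h
    have hn : n < 16 := by
      by_contra hcon
      push Not at hcon
      have h1 : 4 ^ 16 ≤ 4 ^ n := Nat.pow_le_pow_right (by norm_num) hcon
      have h2 : 455 * 4 ^ 16 ≤ 455 * 4 ^ n := Nat.mul_le_mul_left _ h1
      norm_num at h2
      omega
    interval_cases n
    · have h3 : x = 699733 := sq_eq 699733 x (by omega)
      simp [h3]
    · exact absurd (show x ^ 2 = 489626269924 by omega) (nosq 699732 489626269924 (by norm_num) (by norm_num) x)
    · exact absurd (show x ^ 2 = 489626264464 by omega) (nosq 699732 489626264464 (by norm_num) (by norm_num) x)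
    · exact absurd (show x ^ 2 = 489626242624 by omega) (nosq 699732 489626242624 (by norm_num) (by norm_num) x)
    · exact absurd (show x ^ 2 = 489626155264 by omega) (nosq 699732 489626155264 (by norm_num) (by norm_num) x)
    · exact absurd (show x ^ 2 = 489625805824 by omega) (nosq 699732 489625805824 (by norm_num) (by norm_num) x)
    · exact absurd (show x ^ 2 = 489624408064 by omega) (nosq 699731 489624408064 (by norm_num) (by norm_num) x)
    · exact absurd (show x ^ 2 = 489618817024 by omega) (nosq 699727 489618817024 (by norm_num) (by norm_num) x)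
    · exact absurd (show x ^ 2 = 489596452864 by omega) (nosq 699711 489596452864 (by norm_num) (by norm_num) x)
    · exact absurd (show x ^ 2 = 489506996224 by omega) (nosq 699647 489506996224 (by norm_num) (by norm_num) x)
    · have h3 : x = 699392 := sq_eq 699392 x (by omega)
      simp [h3]
    · have h3 : x = 698368 := sq_eq 698368 x (by omega)
      simp [h3]
    · exact absurd (show x ^ 2 = 481992638464 by omega) (nosq 694256 481992638464 (by norm_num) (by norm_num) x)
    · exact absurd (show x ^ 2 = 459091738624 by omega) (nosq 677563 459091738624 (by norm_num) (by norm_num) x)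
    · have h3 : x = 606208 := sq_eq 606208 x (by omega)
      simp [h3]
    · have h3 : x = 32768 := sq_eq 32768 x (by omega)
      simp [h3]
  · rintro (⟨rfl, rfl⟩ | ⟨rfl, rfl⟩ | ⟨rfl, rfl⟩ | ⟨rfl, rfl⟩ | ⟨rfl, rfl⟩) <;> norm_num

theorem odd_part {I J u v : ℕ} (hu : ¬ 2 ∣ u) (hv : ¬ 2 ∣ v) (h : 2 ^ I * u = 2 ^ J * v) :
    u = v := by
  wlog hIJ : I ≤ J generalizing I J u v with H
  · exact (H hv hu h.symm (by omega)).symm
  obtain ⟨d, rfl⟩ := Nat.exists_eq_add_of_le hIJ
  rw [pow_add, mul_assoc] at h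
  have h1 : u = 2 ^ d * v := Nat.eq_of_mul_eq_mul_left (by positivity) h
  rcases Nat.eq_zero_or_pos d with hd | hd
  · rw [h1, hd]
    simp
  · exfalso
    apply hu
    rw [h1]
    exact Dvd.dvd.mul_right (dvd_pow_self 2 (by omega)) v

/-- Different members of the family are essentially different: the ratios `B / A` are different, even
up to powers of `2`. -/
theorem ratio_ne (r t : ℕ) (hrt : r ≠ t) (i j : ℕ) :
    2 ^ i * (coefB r * coefA t) ≠ 2 ^ j * (coefB t * coefA r) := by
  intro h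
  have e : ∀ s b : ℕ, 2 ^ (6 * s + b) = 2 ^ b * 2 ^ (6 * s) := fun s b => by
    rw [pow_add, mul_comm]
  have hB : ∀ s : ℕ, coefB s = 2 ^ (18 * s + 33) * (512 * 2 ^ (6 * s) + 1) := by
    intro s
    have e1 : 2 ^ (12 * s + 22) = 4194304 * (2 ^ (6 * s)) ^ 2 := by
      rw [← pow_mul, show 12 * s + 22 = 22 + 6 * s * 2 by ring, pow_add]
      norm_num
    have e2 : 2 ^ (6 * s + 13) = 8192 * 2 ^ (6 * s) := by
      rw [e]
      norm_num
    have e3 : 2 ^ (12 * s + 20) = 1048576 * (2 ^ (6 * s)) ^ 2 := by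
      rw [← pow_mul, show 12 * s + 20 = 20 + 6 * s * 2 by ring, pow_add]
      norm_num
    have e4 : 2 ^ (18 * s + 33) = 8589934592 * (2 ^ (6 * s)) ^ 3 := by
      rw [← pow_mul, show 18 * s + 33 = 33 + 6 * s * 3 by ring, pow_add]
      norm_num
    unfold coefB
    rw [e1, e2, e3, e4]
    ring
  have hA : ∀ s : ℕ, coefA s = 4096 * 2 ^ (6 * s) - 1 := by
    intro s
    unfold coefA
    rw [e]
    norm_num
  have hpos : ∀ s : ℕ, 1 ≤ 2 ^ (6 * s) := fun s => Nat.one_le_two_pow
  obtain ⟨a, ha⟩ : ∃ a, 4096 * 2 ^ (6 * r) = a + 1 := ⟨4096 * 2 ^ (6 * r) - 1, by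
    have := hpos r
    omega⟩
  obtain ⟨b, hb⟩ : ∃ b, 4096 * 2 ^ (6 * t) = b + 1 := ⟨4096 * 2 ^ (6 * t) - 1, by
    have := hpos t
    omega⟩
  have hAr : coefA r = a := by
    rw [hA, ha]
    rfl
  have hAt : coefA t = b := by
    rw [hA, hb]
    rfl
  rw [hB, hB, hAr, hAt] at h
  have h1 : 2 ^ (i + (18 * r + 33)) * ((512 * 2 ^ (6 * r) + 1) * b) =
      2 ^ (j + (18 * t + 33)) * ((512 * 2 ^ (6 * t) + 1) * a) := by
    rw [pow_add 2 i, pow_add 2 j, mul_assoc, mul_assoc, ← mul_assoc (2 ^ (18 * r + 33)),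
      ← mul_assoc (2 ^ (18 * t + 33))]
    exact h
  have ho1 : ∀ s : ℕ, ¬ 2 ∣ 512 * 2 ^ (6 * s) + 1 := fun s => by omega
  have hoa : ¬ 2 ∣ a := by omega
  have hob : ¬ 2 ∣ b := by omega
  have h2 := odd_part (fun hd => by
      rcases (Nat.Prime.dvd_mul Nat.prime_two).1 hd with h3 | h3
      · exact ho1 r h3
      · exact hob h3) (fun hd => by
      rcases (Nat.Prime.dvd_mul Nat.prime_two).1 hd with h3 | h3
      · exact ho1 t h3
      · exact hoa h3) h1
  have h3 : (2 : ℕ) ^ (6 * r) = 2 ^ (6 * t) := by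
    have ha' : (a : ℤ) = 4096 * 2 ^ (6 * r) - 1 := by
      have : ((4096 * 2 ^ (6 * r) : ℕ) : ℤ) = ((a + 1 : ℕ) : ℤ) := by rw [ha]
      push_cast at this
      linarith
    have hb' : (b : ℤ) = 4096 * 2 ^ (6 * t) - 1 := by
      have : ((4096 * 2 ^ (6 * t) : ℕ) : ℤ) = ((b + 1 : ℕ) : ℤ) := by rw [hb]
      push_cast at this
      linarith
    have h4 : (((512 * 2 ^ (6 * r) + 1) * b : ℕ) : ℤ) = (((512 * 2 ^ (6 * t) + 1) * a : ℕ) : ℤ) := by
      rw [h2]
    push_cast at h4
    rw [ha', hb'] at h4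
    have h5 : ((2 : ℤ) ^ (6 * r)) = 2 ^ (6 * t) := by linarith [h4]
    exact_mod_cast h5
  have h6 := Nat.pow_right_injective (le_refl 2) h3
  omega

/-- For natural numbers `k, A, B` let `solutions k A B` be the set of the pairs `(x, n)` of natural
numbers (zero allowed) with `x² + A kⁿ = B`.

1. It is not true that there are at most four solutions for all `k ≥ 2` and `A, B ≥ 1`.
2. `x² + 455 · 4ⁿ = 489626271744` has exactly five solutions.
3. For every `r`, if `A = 2 ^ (6 r + 12) - 1` and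
  `B = (2 ^ (12 r + 22) + 2 ^ (6 r + 13)) 2 ^ (12 r + 20)`, there are at least five solutions for
  `k = 4` and at least five for `k = 2`.
4. The pairs `(A, B)` of 3 are essentially different: for different `r` the ratios `B / A` are
  different, even up to powers of `2`. -/
theorem result :
    (¬ ∀ k A B : ℕ, 2 ≤ k → 1 ≤ A → 1 ≤ B → (solutions k A B).ncard ≤ 4) ∧
    solutions 4 455 489626271744 =
      {(699733, 0), (699392, 10), (698368, 11), (606208, 14), (32768, 15)} ∧
    (∀ r : ℕ, 1 ≤ coefA r ∧ 1 ≤ coefB r ∧ (solutions 4 (coefA r) (coefB r)).Finite ∧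
      5 ≤ (solutions 4 (coefA r) (coefB r)).ncard ∧
      (solutions 2 (coefA r) (coefB r)).Finite ∧
      5 ≤ (solutions 2 (coefA r) (coefB r)).ncard) ∧
    ∀ r t : ℕ, r ≠ t → ∀ i j : ℕ,
      2 ^ i * (coefB r * coefA t) ≠ 2 ^ j * (coefB t * coefA r) := by
  refine ⟨?_, example_eq, ?_, ratio_ne⟩
  · intro h
    have h1 := h 4 (coefA 0) (coefB 0) (by norm_num) (one_le_coefA 0) (one_le_coefB 0)
    have h2 := five_le_four 0
    omega
  · intro r
    exact ⟨one_le_coefA r, one_le_coefB r,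
      finite_solutions 4 (coefA r) (coefB r) (by norm_num) (one_le_coefA r), five_le_four r,
      finite_solutions 2 (coefA r) (coefB r) (by norm_num) (one_le_coefA r), five_le_two r⟩

end Pool.Agent.Results.MP_ca3412_nt.FiveSolutions
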